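import Pool.Agent.Y729.CAS.Base

/-!
# Precise Cassels bases for all small `λ`: division of `λ` by `m ^ h` (helper729)
-/

set_option autoImplicit false

open Finset

namespace Pool.Agent.Y729.CAS

theorem pow_step (h : ℕ) (hh : 2 ≤ h) (n : ℕ) :
    (n : ℝ) ^ h + (n : ℝ) ^ (h - 1) ≤ ((n : ℝ) + 1) ^ h := by
  obtain ⟨k, rfl⟩ : ∃ k, h = k + 1 := ⟨h - 1, by omega⟩
  rw [Nat.add_sub_cancel, pow_succ, pow_succ]
  have e3 : (n : ℝ) ^ k ≤ ((n : ℝ) + 1) ^ k :=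
    pow_le_pow_left₀ (by positivity) (by linarith) _
  have h0 : (0 : ℝ) ≤ n := Nat.cast_nonneg n
  nlinarith

/-- a sequence of integers with the right asymptotics becomes an increasing sequence of natural
numbers after a change of finitely many terms -/
theorem repair (h : ℕ) (hh : 2 ≤ h) (lam : ℝ) (hlam : 0 < lam) (a' : ℕ → ℤ)
    (herr : ∀ ε : ℝ, 0 < ε → ∃ n1 : ℕ, ∀ n : ℕ, n1 ≤ n →
      |(a' n : ℝ) - lam * (n : ℝ) ^ h| ≤ ε * (n : ℝ) ^ (h - 1)) :
    ∃ (a : ℕ → ℕ) (n0 : ℕ), StrictMono a ∧ (∀ n, n0 ≤ n → (a n : ℤ) = a' n) ∧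
      (fun n : ℕ => (a n : ℝ) - lam * (n : ℝ) ^ h) =o[Filter.atTop]
        (fun n : ℕ => (n : ℝ) ^ (h - 1)) := by
  obtain ⟨n1, hn1⟩ := herr (lam / 2 ^ (h + 1)) (by positivity)
  obtain ⟨n2, hn2⟩ : ∃ n2 : ℕ, 2 / lam < n2 := exists_nat_gt _
  obtain ⟨n0, hn0⟩ : ∃ n0 : ℕ, n0 = max n1 (max n2 1) := ⟨_, rfl⟩
  have hn01 : n1 ≤ n0 := by rw [hn0]; exact le_max_left _ _
  have hn02 : n2 ≤ n0 := by rw [hn0]; exact (le_max_left _ _).trans (le_max_right _ _)
  have hn03 : 1 ≤ n0 := by rw [hn0]; exact (le_max_right _ _).trans (le_max_right _ _)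
  have hhs : h = (h - 1) + 1 := by omega
  have hstep : ∀ n : ℕ, n0 ≤ n → a' n < a' (n + 1) := by
    intro n hn
    have h1 := hn1 n (hn01.trans hn)
    have h2 := hn1 (n + 1) (by omega)
    have hnR : (1 : ℝ) ≤ n := by exact_mod_cast hn03.trans hn
    have hP : (0 : ℝ) < (n : ℝ) ^ (h - 1) := by positivity
    have h3 : ((n : ℝ) + 1) ^ (h - 1) ≤ 2 ^ (h - 1) * (n : ℝ) ^ (h - 1) := by
      rw [← mul_pow]
      apply pow_le_pow_left₀ (by positivity)
      linarith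
    have h4 := pow_step h hh n
    push_cast at h2
    rw [abs_le] at h1 h2
    have h5 : lam / 2 ^ (h + 1) * (n : ℝ) ^ (h - 1) ≤ lam / 4 * (n : ℝ) ^ (h - 1) := by
      apply mul_le_mul_of_nonneg_right _ hP.le
      apply div_le_div_of_nonneg_left hlam.le (by norm_num)
      calc (4 : ℝ) = 2 ^ 2 := by norm_num
        _ ≤ 2 ^ (h + 1) := pow_le_pow_right₀ (by norm_num) (by omega)
    have h6 : lam / 2 ^ (h + 1) * ((n : ℝ) + 1) ^ (h - 1) ≤ lam / 4 * (n : ℝ) ^ (h - 1) := by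
      calc lam / 2 ^ (h + 1) * ((n : ℝ) + 1) ^ (h - 1)
          ≤ lam / 2 ^ (h + 1) * (2 ^ (h - 1) * (n : ℝ) ^ (h - 1)) :=
            mul_le_mul_of_nonneg_left h3 (by positivity)
        _ = lam / 4 * (n : ℝ) ^ (h - 1) := by
            have : (2 : ℝ) ^ (h + 1) = 4 * 2 ^ (h - 1) := by
              have e : h + 1 = (h - 1) + 2 := by omega
              rw [e, pow_add]; norm_num; ring
            rw [this]
            field_simp
    have h7 : lam * ((n : ℝ) ^ h + (n : ℝ) ^ (h - 1)) ≤ lam * ((n : ℝ) + 1) ^ h :=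
      mul_le_mul_of_nonneg_left h4 hlam.le
    have h8 : 0 < lam * (n : ℝ) ^ (h - 1) := by positivity
    have h9 : (a' n : ℝ) < (a' (n + 1) : ℝ) := by nlinarith [h1.2, h2.1]
    exact_mod_cast h9
  have hbig : ∀ n : ℕ, n0 ≤ n → (n : ℤ) < a' n := by
    intro n hn
    have h1 := hn1 n (hn01.trans hn)
    have hnR : (1 : ℝ) ≤ n := by exact_mod_cast hn03.trans hn
    have hP : (0 : ℝ) < (n : ℝ) ^ (h - 1) := by positivity
    rw [abs_le] at h1
    have e1 : (n : ℝ) ^ h = n * (n : ℝ) ^ (h - 1) := by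
      conv_lhs => rw [hhs]
      rw [pow_succ]; ring
    have h5 : lam / 2 ^ (h + 1) * (n : ℝ) ^ (h - 1) ≤ lam / 2 * (n : ℝ) ^ (h - 1) := by
      apply mul_le_mul_of_nonneg_right _ hP.le
      apply div_le_div_of_nonneg_left hlam.le (by norm_num)
      calc (2 : ℝ) = 2 ^ 1 := by norm_num
        _ ≤ 2 ^ (h + 1) := pow_le_pow_right₀ (by norm_num) (by omega)
    have h6 : (n : ℝ) ^ 1 ≤ (n : ℝ) ^ (h - 1) := pow_le_pow_right₀ hnR (by omega)
    rw [pow_one] at h6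
    have h7 : 2 / lam < (n : ℝ) := lt_of_lt_of_le hn2 (by exact_mod_cast hn02.trans hn)
    rw [div_lt_iff₀ hlam] at h7
    have h8 : (n : ℝ) < (a' n : ℝ) := by
      have h9 : lam * (n : ℝ) ^ h = lam * n * (n : ℝ) ^ (h - 1) := by rw [e1]; ring
      have h10 : lam / 2 * (n : ℝ) ^ (h - 1) ≤ lam / 2 * (n * (n : ℝ) ^ (h - 1)) := by
        apply mul_le_mul_of_nonneg_left _ (by positivity)
        nlinarith
      have h11 : (n : ℝ) < lam / 2 * n * (n : ℝ) ^ (h - 1) := by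
        have : 1 < lam / 2 * n := by linarith
        nlinarith
      nlinarith [h1.1]
    exact_mod_cast h8
  obtain ⟨a, haa⟩ : ∃ a : ℕ → ℕ, a = fun n => if n < n0 then n else (a' n).toNat := ⟨_, rfl⟩
  have ha_lt : ∀ n, n < n0 → a n = n := by
    intro n hn
    rw [haa]; simp [hn]
  have ha_ge : ∀ n, n0 ≤ n → (a n : ℤ) = a' n := by
    intro n hn
    rw [haa]
    have h1 : ¬ n < n0 := not_lt.2 hn
    simp only [h1, if_false]
    have h2 := hbig n hn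
    rw [Int.toNat_of_nonneg (by omega)]
  refine ⟨a, n0, ?_, ha_ge, ?_⟩
  · apply strictMono_nat_of_lt_succ
    intro n
    by_cases h1 : n + 1 < n0
    · rw [ha_lt n (by omega), ha_lt (n + 1) h1]
      omega
    · by_cases h2 : n < n0
      · have h3 := ha_ge (n + 1) (by omega)
        have h4 := hbig (n + 1) (by omega)
        have h5 := ha_lt n h2
        omega
      · have h3 := ha_ge (n + 1) (by omega)
        have h4 := ha_ge n (by omega)
        have h5 := hstep n (by omega)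
        omega
  · rw [Asymptotics.isLittleO_iff]
    intro c hc
    obtain ⟨n3, hn3⟩ := herr c hc
    filter_upwards [Filter.eventually_ge_atTop (max n0 n3)] with n hn
    have h1 := hn3 n ((le_max_right _ _).trans hn)
    have h2 := ha_ge n ((le_max_left _ _).trans hn)
    have h3 : (a n : ℝ) = (a' n : ℝ) := by exact_mod_cast congrArg (fun z : ℤ => (z : ℝ)) h2
    rw [h3, Real.norm_eq_abs, Real.norm_eq_abs, abs_of_nonneg (by positivity : (0:ℝ) ≤ (n : ℝ) ^ (h - 1))]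
    exact h1

/-- a basis for `λ` gives one for `λ / m ^ h` -/
theorem fill (h : ℕ) (hh : 2 ≤ h) (lam : ℝ) (hlam : 0 < lam) (a : ℕ → ℕ) (ha : Basis h lam a)
    (m : ℕ) (hm : 1 ≤ m) : ∃ b : ℕ → ℕ, Basis h (lam / (m : ℝ) ^ h) b := by
  obtain ⟨hmono, hbas, hlit⟩ := ha
  have hmR : (1 : ℝ) ≤ m := by exact_mod_cast hm
  have hm0 : (0 : ℝ) < m := by linarith
  obtain ⟨b', hb'⟩ : ∃ b' : ℕ → ℤ, b' = fun n => if m ∣ n then (a (n / m) : ℤ) else
    ⌊lam / (m : ℝ) ^ h * (n : ℝ) ^ h⌋ := ⟨_, rfl⟩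
  have hmul : ∀ n, b' (m * n) = a n := by
    intro n
    rw [hb']
    simp only [dvd_mul_right, if_true]
    rw [Nat.mul_div_cancel_left _ (by omega)]
  rw [Asymptotics.isLittleO_iff] at hlit
  have herr : ∀ ε : ℝ, 0 < ε → ∃ n1 : ℕ, ∀ n : ℕ, n1 ≤ n →
      |(b' n : ℝ) - lam / (m : ℝ) ^ h * (n : ℝ) ^ h| ≤ ε * (n : ℝ) ^ (h - 1) := by
    intro ε hε
    obtain ⟨n2, hn2⟩ := Filter.eventually_atTop.1 (hlit hε)
    obtain ⟨n3, hn3⟩ : ∃ n3 : ℕ, 1 / ε ≤ n3 := exists_nat_ge _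
    refine ⟨max (m * n2) (max n3 1), fun n hn => ?_⟩
    have hA : m * n2 ≤ n := (le_max_left _ _).trans hn
    have hB : n3 ≤ n := ((le_max_left _ _).trans (le_max_right _ _)).trans hn
    have hC : 1 ≤ n := ((le_max_right _ _).trans (le_max_right _ _)).trans hn
    have hnR : (1 : ℝ) ≤ n := by exact_mod_cast hC
    by_cases hd : m ∣ n
    · obtain ⟨k, rfl⟩ := hd
      rw [hmul]
      have hk : n2 ≤ k := Nat.le_of_mul_le_mul_left hA (by omega)
      have h1 := hn2 k hk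
      rw [Real.norm_eq_abs, Real.norm_eq_abs, abs_of_nonneg (by positivity : (0:ℝ) ≤ (k : ℝ) ^ (h - 1))] at h1
      have e1 : lam / (m : ℝ) ^ h * ((m * k : ℕ) : ℝ) ^ h = lam * (k : ℝ) ^ h := by
        push_cast
        rw [mul_pow]
        field_simp
      rw [e1]
      refine (by exact_mod_cast h1 : |((a k : ℤ) : ℝ) - lam * (k : ℝ) ^ h| ≤
        ε * (k : ℝ) ^ (h - 1)).trans ?_
      apply mul_le_mul_of_nonneg_left _ hε.le
      apply pow_le_pow_left₀ (by positivity)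
      push_cast
      nlinarith [(Nat.cast_nonneg k : (0 : ℝ) ≤ k)]
    · have e1 : b' n = ⌊lam / (m : ℝ) ^ h * (n : ℝ) ^ h⌋ := by
        rw [hb']; simp only [hd, if_false]
      rw [e1]
      have h1 : |((⌊lam / (m : ℝ) ^ h * (n : ℝ) ^ h⌋ : ℤ) : ℝ) -
          lam / (m : ℝ) ^ h * (n : ℝ) ^ h| ≤ 1 := by
        rw [abs_le]
        have h1 := Int.floor_le (lam / (m : ℝ) ^ h * (n : ℝ) ^ h)
        have h2 := Int.lt_floor_add_one (lam / (m : ℝ) ^ h * (n : ℝ) ^ h)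
        constructor <;> linarith
      refine h1.trans ?_
      have h2 : (1 : ℝ) ≤ ε * n := by
        have h3 : 1 / ε ≤ (n : ℝ) := hn3.trans (by exact_mod_cast hB)
        rw [div_le_iff₀ hε] at h3
        linarith
      have h3 : (n : ℝ) ^ 1 ≤ (n : ℝ) ^ (h - 1) := pow_le_pow_right₀ hnR (by omega)
      rw [pow_one] at h3
      nlinarith
  obtain ⟨b, n0, h1, h2, h3⟩ := repair h hh (lam / (m : ℝ) ^ h) (by positivity) b' herr
  refine ⟨b, h1, fun K => ?_, h3⟩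
  obtain ⟨N₀, hN₀⟩ := hbas (max n0 K)
  refine ⟨N₀, fun N hN => ?_⟩
  obtain ⟨f, hf1, hf2⟩ := hN₀ N hN
  have hle : ∀ i, max n0 K ≤ m * f i := fun i => (hf1 i).trans (Nat.le_mul_of_pos_left _ (by omega))
  refine ⟨fun i => m * f i, fun i => (le_max_right _ _).trans (hle i), ?_⟩
  rw [← hf2]
  refine Finset.sum_congr rfl fun i _ => ?_
  have h4 := h2 (m * f i) ((le_max_left _ _).trans (hle i))
  rw [hmul] at h4
  exact_mod_cast h4

/-- **All small `λ`.** -/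
theorem all_small (h : ℕ) (hh : 2 ≤ h) : ∃ c : ℝ, 0 < c ∧ ∀ lam : ℝ, 0 < lam → lam ≤ c →
    ∃ a : ℕ → ℕ, Basis h lam a := by
  obtain ⟨L, hL, hscale⟩ := scale_all h hh
  -- `((m + 1) / m) ^ h ≤ 5 / 4` for large `m`
  obtain ⟨m0, hm0, hm1⟩ : ∃ m0 : ℕ, 1 ≤ m0 ∧ ∀ m : ℕ, m0 ≤ m →
      ((m : ℝ) + 1) ^ h ≤ 5 / 4 * (m : ℝ) ^ h := by
    have h1 : Filter.Tendsto (fun m : ℕ => (1 + 1 / ((m : ℝ) + 1)) ^ h) Filter.atTop
        (nhds ((1 + 0) ^ h)) :=
      ((tendsto_const_nhds).add tendsto_one_div_add_atTop_nhds_zero_nat).pow h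
    have h2 : ((1 : ℝ) + 0) ^ h < 5 / 4 := by rw [add_zero, one_pow]; norm_num
    obtain ⟨m0, hm0⟩ := Filter.eventually_atTop.1 (h1.eventually (gt_mem_nhds h2))
    refine ⟨m0 + 1, by omega, fun m hm => ?_⟩
    obtain ⟨k, rfl⟩ : ∃ k, m = k + 1 := ⟨m - 1, by omega⟩
    have h3 := (hm0 k (by omega)).le
    have h4 : (((k + 1 : ℕ) : ℝ) + 1) = (1 + 1 / ((k : ℝ) + 1)) * ((k + 1 : ℕ) : ℝ) := by
      push_cast
      field_simp
    rw [h4, mul_pow]
    exact mul_le_mul_of_nonneg_right h3 (by positivity)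
  have hm0R : (0 : ℝ) < m0 := by exact_mod_cast (by omega : 0 < m0)
  refine ⟨L / (m0 : ℝ) ^ h, by positivity, fun lam hlam hle => ?_⟩
  have hex : ∃ m : ℕ, L ≤ lam * (m : ℝ) ^ h := by
    obtain ⟨m, hm⟩ := exists_nat_ge (max 1 (L / lam))
    refine ⟨m, ?_⟩
    have h1 : (1 : ℝ) ≤ m := (le_max_left _ _).trans hm
    have h2 : L / lam ≤ m := (le_max_right _ _).trans hm
    have h3 : (m : ℝ) ≤ (m : ℝ) ^ h := le_self_pow₀ h1 (by omega)
    rw [div_le_iff₀ hlam] at h2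
    nlinarith
  classical
  obtain ⟨m, hm, hmin⟩ : ∃ m : ℕ, L ≤ lam * (m : ℝ) ^ h ∧ ∀ k < m, lam * (k : ℝ) ^ h < L :=
    ⟨Nat.find hex, Nat.find_spec hex, fun k hk => not_le.1 (Nat.find_min hex hk)⟩
  have hmm0 : m0 ≤ m := by
    by_contra hcon
    push Not at hcon
    have h1 : lam * (m0 : ℝ) ^ h ≤ L := by
      rwa [le_div_iff₀ (by positivity)] at hle
    have h2 : (m : ℝ) ^ h < (m0 : ℝ) ^ h :=
      pow_lt_pow_left₀ (by exact_mod_cast hcon) (Nat.cast_nonneg _) (by omega)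
    nlinarith
  have hup : lam * (m : ℝ) ^ h ≤ 5 / 4 * L := by
    rcases eq_or_lt_of_le hmm0 with h1 | h1
    · have h2 : lam * (m0 : ℝ) ^ h ≤ L := by
        rwa [le_div_iff₀ (by positivity)] at hle
      rw [← h1]
      linarith
    · obtain ⟨k, rfl⟩ : ∃ k, m = k + 1 := ⟨m - 1, by omega⟩
      have h2 := hmin k (by omega)
      have h3 := hm1 k (by omega)
      push_cast
      nlinarith
  have hmpos : 1 ≤ m := hm0.trans hmm0
  have hmR : (0 : ℝ) < m := by exact_mod_cast (by omega : 0 < m)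
  obtain ⟨a, ha⟩ := basis_of_scale h hh (lam * (m : ℝ) ^ h) (by positivity) (hscale _ hm hup)
  obtain ⟨b, hb⟩ := fill h hh _ (by positivity) a ha m hmpos
  refine ⟨b, ?_⟩
  have e : lam * (m : ℝ) ^ h / (m : ℝ) ^ h = lam := by field_simp
  rwa [e] at hb

end Pool.Agent.Y729.CAS
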