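import Pool.Agent.Helper112.Cb.Kca

/-!
# Precise Cassels bases for all small `λ`: the local statement (helper729)

The proof of `Pool.Agent.Helper112.CB.Ksl.scale` gives one value of `λ`; it has room for all values
of an interval `[L, 5 L / 4]`.
-/

set_option autoImplicit false

open Finset

namespace Pool.Agent.Y729.CAS

open Pool.Agent.Helper112.CB Pool.Agent.Helper112.CB.Ksl

/-- the local statement: for all `ε`, all large `M` and all residues `ρ` mod `12 h` there is a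
perturbation `b n` of `λ n ^ h`, with error at most `ε M ^ (h - 1)`, such that all integers in
`[λ M ^ h, 2 ^ h λ M ^ h]` are sums of `h` of the `b n`, `n ≡ ρ` -/
def ScaleProp (h : ℕ) (lam : ℝ) : Prop := ∀ ε : ℝ, 0 < ε → ∃ M₀ : ℕ,
    ∀ M : ℕ, M₀ ≤ M → ∀ ρ : ℕ, ρ < 12 * h →
    ∃ b : ℕ → ℤ, (∀ n : ℕ, M ≤ 4 * h * n → n ≤ 3 * M →
        |(b n : ℝ) - lam * n ^ h| ≤ ε * M ^ (h - 1)) ∧
      ∀ N : ℕ, lam * M ^ h ≤ N → (N : ℝ) ≤ 2 ^ h * (lam * M ^ h) →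
        ∃ f : Fin h → ℕ, (∀ i, M ≤ 4 * h * f i ∧ f i ≤ 3 * M ∧ f i % (12 * h) = ρ) ∧
          ∑ i, b (f i) = N

theorem scale_all (h : ℕ) (hh : 2 ≤ h) : ∃ L : ℝ, 0 < L ∧ ∀ lam : ℝ, L ≤ lam →
    lam ≤ 5 / 4 * L → ScaleProp h lam := by
  obtain ⟨k, rfl⟩ : ∃ k, h = k + 2 := ⟨h - 2, by omega⟩
  set q : ℕ := 12 * (k + 2) * (k + 1) with hqdef
  have hq1 : 1 ≤ q := Nat.succ_le_of_lt (by positivity)
  obtain ⟨P, hP0, hP1, hserve⟩ := serve_main (k + 2) hh q hq1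
  set D : ℝ := ((8 * (k + 2) * q : ℕ) : ℝ) with hD
  have hDpos : 0 < D := by
    rw [hD]; exact_mod_cast (show 0 < 8 * (k + 2) * q by positivity)
  obtain ⟨L, hLe⟩ : ∃ L : ℝ, L = P / D ^ k := ⟨_, rfl⟩
  have hL0 : 0 < L := by rw [hLe]; positivity
  refine ⟨L, hL0, fun lam hl1 hl2 ε hε => ?_⟩
  have hlam0 : 0 < lam := lt_of_lt_of_le hL0 hl1
  set η : ℝ := max 1 ((100 * ((k + 2 : ℕ) : ℝ) + 2) * P / (ε * D ^ k)) with hη
  have hη1 : 1 ≤ η := le_max_left _ _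
  have hη0 : 0 < η := by linarith
  have hηε : (100 * ((k + 2 : ℕ) : ℝ) + 2) * (P / (η * D ^ k)) ≤ ε := by
    have h1 : (100 * ((k + 2 : ℕ) : ℝ) + 2) * P / (ε * D ^ k) ≤ η := le_max_right _ _
    rw [div_le_iff₀ (by positivity)] at h1
    rw [← mul_div_assoc, div_le_iff₀ (by positivity)]
    linarith
  obtain ⟨Zs, hZs, _, M₁, hM₁⟩ := hserve η hη1
  obtain ⟨M₂, hM₂⟩ := params_h k P η D hP0 hη1 (8 * (k + 2) * q)
    (Nat.succ_le_of_lt (by positivity)) hD Zs hZs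
  refine ⟨max (max M₁ M₂) (max (16 * (k + 2) * q) 3), fun M hM ρ hρ => ?_⟩
  have hMM₁ : M₁ ≤ M := (le_max_left _ _).trans ((le_max_left _ _).trans hM)
  have hMM₂ : M₂ ≤ M := (le_max_right _ _).trans ((le_max_left _ _).trans hM)
  have hM16 : 16 * (k + 2) * q ≤ M := (le_max_left _ _).trans ((le_max_right _ _).trans hM)
  have hM3 : 3 ≤ M := (le_max_right _ _).trans ((le_max_right _ _).trans hM)
  have hM0 : (0:ℝ) < M := by exact_mod_cast (show 0 < M by omega)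
  obtain ⟨s1, U, hZs1, hs1, hU, hUM, hs1u, hs1l, hUB, hprod⟩ := hM₂ M hMM₂
  set s : ℕ := s1 * U ^ k with hs
  have hspos : 0 < s := Nat.mul_pos hs1 (Nat.one_le_pow _ _ hU)
  have hsR : (0:ℝ) < s := by exact_mod_cast hspos
  have hscast : (s : ℝ) = s1 * (U : ℝ) ^ k := by rw [hs]; push_cast; rfl
  set θ : ℝ := lam / s with hθ
  have hθs : (s : ℝ) * θ = lam := by rw [hθ]; field_simp
  have hsup : (s : ℝ) ≤ (P * M / η) * (M / D) ^ k := by
    rw [hscast]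
    exact mul_le_mul hs1u (pow_le_pow_left₀ (Nat.cast_nonneg _) hUB k) (by positivity)
      (by positivity)
  have hLM : L * (M : ℝ) ^ (k + 1) = η * ((P * M / η) * (M / D) ^ k) := by
    rw [hLe, div_pow, pow_succ]
    field_simp
  have hlamM1 : η * ((P * M / η) * (M / D) ^ k) ≤ lam * (M : ℝ) ^ (k + 1) := by
    rw [← hLM]
    exact mul_le_mul_of_nonneg_right hl1 (by positivity)
  have hlamM2 : lam * (M : ℝ) ^ (k + 1) ≤ 5 / 4 * (η * ((P * M / η) * (M / D) ^ k)) := by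
    rw [← hLM, ← mul_assoc]
    exact mul_le_mul_of_nonneg_right hl2 (by positivity)
  have hθlo : η ≤ θ * (M : ℝ) ^ (k + 1) := by
    rw [hθ, div_mul_eq_mul_div, le_div_iff₀ hsR]
    exact (mul_le_mul_of_nonneg_left hsup hη0.le).trans hlamM1
  have hθhi : θ * (M : ℝ) ^ (k + 1) ≤ 2 * η := by
    rw [hθ, div_mul_eq_mul_div, div_le_iff₀ hsR, hscast]
    refine hlamM2.trans ?_
    have := mul_le_mul_of_nonneg_left hprod (by positivity : 0 ≤ 2 * η)
    linarith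
  have hρq : ρ < q := by
    rw [hqdef]
    calc ρ < 12 * (k + 2) := hρ
      _ ≤ 12 * (k + 2) * (k + 1) := Nat.le_mul_of_pos_right _ (by omega)
  obtain ⟨x, lab, hx, hrep⟩ := hM₁ M hMM₁ s1 hZs1 hs1l hs1u θ hθlo hθhi ρ hρq
  refine ⟨bseq k M q ρ s1 U θ lam x lab, ?_, ?_⟩
  · intro n _ _
    refine (bseq_error hqdef hρ hs1 hU hθs hx n).trans ?_
    calc (100 * ((k + 2 : ℕ) : ℝ) + 2) * (s : ℝ) ≤
          (100 * ((k + 2 : ℕ) : ℝ) + 2) * ((P * M / η) * (M / D) ^ k) :=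
          mul_le_mul_of_nonneg_left hsup (by positivity)
      _ = ((100 * ((k + 2 : ℕ) : ℝ) + 2) * (P / (η * D ^ k))) * (M : ℝ) ^ (k + 1) := by
          rw [div_pow, pow_succ]
          field_simp
      _ ≤ ε * (M : ℝ) ^ (k + 1) := mul_le_mul_of_nonneg_right hηε (by positivity)
  · intro N hN1 hN2
    apply bseq_rep hqdef hρ hs1 hU hUM hM16 hM3 hθs (hη1.trans hθlo) ?_ N hN1 hN2
    intro r hr T hT1 hT2
    exact hrep 0 (by simp) r (by simp) (by simpa using hr) T hT1 hT2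


end Pool.Agent.Y729.CAS
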